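import Mathlib
import Pool.Agent.P.MP_39ae23_nt.Defs
import Pool.Agent.P.MP_39ae23_nt.All

set_option autoImplicit false

open Pool.Agent.P.MP_39ae23_nt

theorem Pool.Agent.Results.MP_39ae23_nt.AllValues.result :
    ∃ A : Matrix (Fin 2) (Fin 1) ℝ, MeasurableSet (Bad A) ∧
      ∀ t : ℝ, 0 ≤ t → t ≤ 1 → ∃ μ : MeasureTheory.Measure (Fin 2 → UnitAddCircle),
        IsAlgebraicMeasure μ ∧ μ (Bad A) = ENNReal.ofReal t :=
  AV.main
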